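import Pool.Agent.N809.P17.All
import Pool.Agent.N969.Den.Root17

/-!
# All quadratic twists of the curve of conductor 17

The rank form of the Birch and Swinnerton-Dyer conjecture for a positive proportion (20.97 percent) of
ALL quadratic twists of the curve `E : y² = x (x + 1) (x - 16)` of conductor 17, which has no complex
multiplication: for every squarefree integer `d`, of either sign and with no condition on `d` at all, if
the twist `E_d` has finitely many rational points and trivial `Ш[2]`, then `L(E_d, 1) ≠ 0`. So for the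
whole family of the quadratic twists of `E` the `2`-Selmer group of the smallest possible order implies
that the analytic rank is zero. The natural density of these `d` is exactly
`(1/2) ∏_{i ≥ 1} (1 - 2^{-(2i-1)}) = 0.2097...`, in the ordering by `|d|` and in the ordering by the
absolute value of the discriminant of `ℚ(√d)`; they all have root number `+1`, and among the `d` with
root number `+1` the density is (in both orderings) `∏_{i ≥ 1} (1 - 2^{-(2i-1)}) = 0.4194...`.

Joint work of helpers 969, 970, 971, 972, 973, 974, 975, 99, 218, 402, 575, 809, 816, 844, 855, 871, 875,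
877, 886, 890, 916, 919 and others: Gross's formula for the definite quaternion order of discriminant 17,
Rankin's method for the positive discriminants, the diagonal identities and their parity, the modular
parametrization of level 17, the modular symbols and the L-function, the descent and its converse, the
parity of the descent matrix, the natural density.
-/

set_option autoImplicit false

open Finset Filter

namespace Pool.Agent.Results.MP_696deb_nt.Conductor17

/-- the coefficient `a` of the twist `E_d : y² = x³ + a x + b` of `y² = x (x + 1) (x - 16)` by `d` -/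
def A (d : ℤ) : ℤ := -91 * d ^ 2

/-- the coefficient `b` of the twist `E_d : y² = x³ + a x + b` of `y² = x (x + 1) (x - 16)` by `d` -/
def B (d : ℤ) : ℤ := -330 * d ^ 3

/-- the curve `E_d` over `ℚ` -/
def E (d : ℤ) : WeierstrassCurve ℚ :=
  { a₁ := 0, a₂ := 0, a₃ := 0, a₄ := (A d : ℚ), a₆ := (B d : ℚ) }

/-- `E_d(ℚ)` is finite and `Ш(E_d/ℚ)` has no element of order two -/
def RankZeroShaTwo (d : ℤ) : Prop :=
  Finite (E d).toAffine.Point ∧ ∀ x : Pool.Agent.TH841.SH.D.Sha (E d), 2 • x = 0 → x = 0

/-- the `d` for which the twist `E_d` has root number `+1`: `d < 0` and `17` is not split in `ℚ(√d)`, or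
`d > 0` and `17` is split in `ℚ(√d)` -/
def RootPlus (d : ℤ) : Prop := (0 < d ∧ jacobiSym d 17 = 1) ∨ (d < 0 ∧ jacobiSym d 17 ≠ 1)

/-- the conclusion of the frozen statement for `y² = x³ + a x + b`, together with the fact that the
order of vanishing and the rank are both `0` -/
def BSDRankZero (a b : ℤ) : Prop :=
  4 * a ^ 3 + 27 * b ^ 2 ≠ 0 ∧
    ∃ F : ℂ → ℂ, Differentiable ℂ F ∧
      (∀ s : ℂ, (3 : ℝ) / 2 < s.re →
        HasProd
          (fun p : ℕ => open Classical in
            if p.Prime ∧ ¬ ((p : ℤ) ∣ 2 * (-4 * a ^ 3 - 27 * b ^ 2)) then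
              (1 - ((p : ℂ) - (Nat.card {q : ZMod p × ZMod p //
                  q.2 ^ 2 = q.1 ^ 3 + (a : ZMod p) * q.1 + (b : ZMod p)} : ℂ))
                  * (p : ℂ) ^ (-s) + (p : ℂ) ^ (1 - 2 * s))⁻¹
            else 1)
          (F s)) ∧
      analyticOrderAt F 1 =
        ((Module.finrank ℤ
          (WeierstrassCurve.Affine.Point
            (WeierstrassCurve.toAffine
              ({ a₁ := 0, a₂ := 0, a₃ := 0, a₄ := (a : ℚ), a₆ := (b : ℚ) } :
                WeierstrassCurve ℚ))) : ℕ) : ℕ∞) ∧
      Module.finrank ℤ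
        (WeierstrassCurve.Affine.Point
          (WeierstrassCurve.toAffine
            ({ a₁ := 0, a₂ := 0, a₃ := 0, a₄ := (a : ℚ), a₆ := (b : ℚ) } :
              WeierstrassCurve ℚ))) = 0

open Classical in
/-- the number of the squarefree integers `d`, `|d| ≤ X`, with the property `P` -/
noncomputable def count (P : ℤ → Prop) (X : ℕ) : ℕ :=
  ((Icc (-(X : ℤ)) X).filter fun d => Squarefree d ∧ P d).card

/-- `D` is a fundamental discriminant (`1` included) -/
def Fund (D : ℤ) : Prop := (Squarefree D ∧ D % 4 = 1) ∨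
  ∃ m : ℤ, D = 4 * m ∧ Squarefree m ∧ (m % 4 = 2 ∨ m % 4 = 3)

/-- the squarefree integer `d` with `ℚ(√d) = ℚ(√D)` -/
def core (D : ℤ) : ℤ := if D % 2 = 1 then D else D / 4

open Classical in
/-- the number of the fundamental discriminants `D`, `|D| ≤ X`, for which `core D` has the
property `P` -/
noncomputable def countDisc (P : ℤ → Prop) (X : ℕ) : ℕ :=
  ((Icc (-(X : ℤ)) X).filter fun D => Fund D ∧ P (core D)).card

open Pool.Agent.N875.P17 (WS)
open Pool.Agent.N916.MO (G17)
open Pool.Agent.N919.BS (NS NF Rt17)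

theorem E_eq (d : ℤ) : E d = WS d := rfl

theorem rank_eq (d : ℤ) : RankZeroShaTwo d ↔ Pool.Agent.N875.X15.Fin2 (WS d) := by
  unfold RankZeroShaTwo Pool.Agent.N875.X15.Fin2
  rw [← E_eq]
  refine and_congr Iff.rfl (forall_congr' fun x => ?_)
  rw [two_nsmul]

theorem rank_iff {d : ℤ} (hs : Squarefree d) : RankZeroShaTwo d ↔ Rt17 d ∧ G17 d := by
  rw [rank_eq]
  exact Pool.Agent.N809.P17.fin2_all hs

theorem bsd_of_rank {a b : ℤ} (h0 : 4 * a ^ 3 + 27 * b ^ 2 ≠ 0)
    (h : Pool.Agent.Y687.RankBSD a b) : BSDRankZero a b := by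
  obtain ⟨F, h1, h2, h3, h4⟩ := h
  exact ⟨h0, F, h1, h2, by rw [h3, h4]; rfl, h4⟩

theorem fund_core {D : ℤ} (h : Fund D) : Squarefree (core D) := by
  rcases h with ⟨h1, h2⟩ | ⟨m, rfl, h1, h2⟩
  · unfold core
    rw [if_pos (by omega)]
    exact h1
  · unfold core
    rw [if_neg (by omega)]
    have : 4 * m / 4 = m := by omega
    rw [this]
    exact h1

theorem count_eq (P Q : ℤ → Prop) (h : ∀ d, Squarefree d → (P d ↔ Q d)) (X : ℕ) :
    count P X = NS Q X := by
  classical
  unfold count NS
  refine congrArg Finset.card (Finset.ext fun n => ?_)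
  refine (Finset.mem_filter).trans (Iff.trans ?_ (Finset.mem_filter).symm)
  refine and_congr_right fun _ => and_congr_right fun hs => h n hs

theorem countDisc_eq (P Q : ℤ → Prop) (h : ∀ d, Squarefree d → (P d ↔ Q d)) (X : ℕ) :
    countDisc P X = NF Q X := by
  classical
  unfold countDisc NF
  refine congrArg Finset.card (Finset.ext fun n => ?_)
  refine (Finset.mem_filter).trans (Iff.trans ?_ (Finset.mem_filter).symm)
  refine and_congr_right fun _ => and_congr_right fun hs => h _ (fund_core hs)

theorem hasProd_c2 : HasProd (fun i : ℕ => 1 - (1 / 2 : ℝ) ^ (2 * i + 1)) Pool.Agent.Y703.CQ.c2 := by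
  have h : Multipliable fun i : ℕ => 1 + -((1 / 2 : ℝ) ^ (2 * i + 1)) := by
    apply multipliable_one_add_of_summable
    have h1 : Summable fun i : ℕ => (1 / 4 : ℝ) ^ i * (1 / 2) :=
      (summable_geometric_of_lt_one (by norm_num) (by norm_num)).mul_right _
    refine h1.congr fun i => ?_
    rw [norm_neg, Real.norm_of_nonneg (by positivity), pow_succ, pow_mul]
    norm_num
  have h3 := h.hasProd
  have e : (fun i : ℕ => 1 + -((1 / 2 : ℝ) ^ (2 * i + 1))) =
      fun i : ℕ => 1 - (1 / 2 : ℝ) ^ (2 * i + 1) := by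
    funext i
    ring
  rw [e] at h3
  exact h3

theorem result :
    (∀ d : ℤ, Squarefree d → RankZeroShaTwo d → RootPlus d ∧ BSDRankZero (A d) (B d)) ∧
    ∃ η : ℝ, HasProd (fun i : ℕ => 1 - (1 / 2 : ℝ) ^ (2 * i + 1)) η ∧ 0.4194 < η ∧ η < 0.4195 ∧
      Tendsto (fun X : ℕ => (count RankZeroShaTwo X : ℝ) / (count (fun _ => True) X : ℝ))
        atTop (nhds (η / 2)) ∧
      Tendsto (fun X : ℕ => (countDisc RankZeroShaTwo X : ℝ) / (countDisc (fun _ => True) X : ℝ))
        atTop (nhds (η / 2)) ∧
      Tendsto (fun X : ℕ => (count RankZeroShaTwo X : ℝ) / (count RootPlus X : ℝ))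
        atTop (nhds η) ∧
      Tendsto (fun X : ℕ => (countDisc RankZeroShaTwo X : ℝ) / (countDisc RootPlus X : ℝ))
        atTop (nhds η) := by
  have e1 := count_eq RankZeroShaTwo (fun d => Rt17 d ∧ G17 d) fun d hs => rank_iff hs
  have e2 := count_eq (fun _ => True) (fun _ => True) fun d _ => Iff.rfl
  have e3 := countDisc_eq RankZeroShaTwo (fun d => Rt17 d ∧ G17 d) fun d hs => rank_iff hs
  have e4 := countDisc_eq (fun _ => True) (fun _ => True) fun d _ => Iff.rfl
  have e5 := count_eq RootPlus Rt17 fun d _ => Iff.rfl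
  have e6 := countDisc_eq RootPlus Rt17 fun d _ => Iff.rfl
  obtain ⟨-, -, -, hb1, hb2⟩ := Pool.Agent.Y948.CQ.t_C2
  have h1 := Pool.Agent.N916.MO.dens17_sf
  refine ⟨fun d hs hR => ⟨((rank_iff hs).1 hR).1, ?_⟩, Pool.Agent.Y703.CQ.c2, hasProd_c2, hb1, hb2,
    ?_, ?_, ?_, ?_⟩
  · refine bsd_of_rank ?_ (Pool.Agent.N809.P17.bsd_all hs ((rank_eq d).1 hR))
    have e : 4 * (A d) ^ 3 + 27 * (B d) ^ 2 = -73984 * d ^ 6 := by
      unfold A B
      ring
    rw [e]
    exact mul_ne_zero (by norm_num) (pow_ne_zero 6 hs.ne_zero)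
  · refine h1.congr fun X => ?_
    rw [e1, e2]
  · refine Pool.Agent.N916.MO.dens17_fd.congr fun X => ?_
    rw [e3, e4]
  · have h2 := h1.const_mul 2
    rw [show 2 * (Pool.Agent.Y703.CQ.c2 / 2) = Pool.Agent.Y703.CQ.c2 by ring] at h2
    refine h2.congr fun X => ?_
    rw [e1, e5]
    have h3 := Pool.Agent.N919.BS.NS_half Pool.Agent.N919.BS.root17 X
    have h4 : (NS (fun _ => True) X : ℝ) = 2 * (NS Rt17 X : ℝ) := by
      rw [← h3]
      push_cast
      ring
    rw [h4]
    by_cases h5 : (NS Rt17 X : ℝ) = 0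
    · rw [h5]
      simp
    · field_simp
  · refine Pool.Agent.N969.Den.dens17_root.congr fun X => ?_
    rw [e3, e6]

end Pool.Agent.Results.MP_696deb_nt.Conductor17
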