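import Pool.Agent.N856.ST.Fin
import Pool.Agent.N963.AA.Fin

/-!
# The rank form of the conjecture for arbitrarily many families of quadratic twists at the same time

`E_d` is the twist by `d` of one of the three curves `X_0(15) : y² = x (x + 9) (x - 16)`,
`X_0(21) : y² = x (x - 9) (x + 7)` and `X_0(24) : y² = x (x - 1) (x + 3)`; they have no complex
multiplication, and their twists are pairwise not isogenous. The twist by a negative squarefree
`d ≡ 1 mod 4` is allowed if, in `ℚ(√d)`,
* `X_0(15)`: `3` is not inert and `5` is not split,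
* `X_0(21)`: `3` is not split and `7` is not inert,
* `X_0(24)`: `2` is inert and `3` is not inert.

1. For every allowed twist: `E_d(ℚ)` is finite and `Ш(E_d/ℚ)[2] = 0` if and only if the class group of
`ℚ(√d)` has no element of order four, and then `L(E_d, 1) ≠ 0`: rank and order of vanishing are both zero.

2. Let `D` be any finite set of pairs (curve, multiplier `c`), the `c` odd, squarefree and not necessarily
prime to `n`, and let `n` be a random squarefree integer in any residue classes modulo any `M` such that all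
the twists by the squarefree parts `tw c (-n)` of `-c n` are allowed. Let `C` be the set of the multipliers
and `η = ∏_{i ≥ 1} (1 - 2^{-i}) = 0.288…`. For each subset `V` of `C` the natural density of the `n` for which
the set of the `c` whose curves have finitely many rational points and `Ш[2] = 0` is exactly `V`, the rank
form being true for all these curves, is exactly `η ^ #V (1 - η) ^ #(C \ V)`. So the rank form is true
for all the curves of the arbitrarily many families at the same time for the natural density `η ^ #C`.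

3. Let `C` be any finite set of squarefree `c ≡ 1 mod 840`. For the natural density `η ^ #C` of the
squarefree `n ≡ 3 mod 24`, `n ≡ 0, 2, 3 mod 5`, `n ≡ 0, 3, 5, 6 mod 7`, and for the proportion at least
`(7 / 1024) η ^ #C - ε` of **all** squarefree integers `d` of both signs, the rank form is true for all the
`3 #C` twists of the three curves by `tw c d`, `c` in `C`.

4. For every `ε > 0` there is a finite set `C` of squarefree integers such that for the proportion at least
`1 - ε` of **all** squarefree integers `d` of both signs, `|d| < X`, `X` large, one of the twists by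
`√(c d)`, `c` in `C`, is of rank `0` with `Ш[2] = 0` and satisfies the rank form, for all three curves at the
same time. (The multipliers are, up to signs and factors `2` and `3`, primes in arithmetic progressions; the
failures of `k` multipliers have density `(1 - η) ^ k` in their class by 2.)

The central values and the descent of one curve are joint work of many helpers (969, 970, 971, 972, 973,
974, 975, 875, 816, 871, 218, 402 and others for 15; 637, 877, 809 and others for 21; 877, 373, 402, 9, 42,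
490, 579, 878 and others for 24); the density of one condition is by helper916, the linear algebra of several
conditions after helpers 426, 588, 494 and others; the Euler product for 24 by helper704, the density of the
class by helper878; part 4 by helper963 after an idea of helpers 969 and 972; this file: helper856.
-/

set_option autoImplicit false

open Filter Topology Finset

namespace Pool.Agent.Results.MP_696deb_nt.ArbitrarilyManyTwists

/-- the coefficient `a` of the twist `E_d : y² = x³ + a x + b` by `d` of the curve `X_0(l)` -/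
def A (l : ℕ) (d : ℤ) : ℤ :=
  if l = 15 then -12987 * d ^ 2 else if l = 21 then -5211 * d ^ 2 else -351 * d ^ 2

/-- the coefficient `b` of the twist `E_d : y² = x³ + a x + b` by `d` of the curve `X_0(l)` -/
def B (l : ℕ) (d : ℤ) : ℤ :=
  if l = 15 then -263466 * d ^ 3 else if l = 21 then -31050 * d ^ 3 else 1890 * d ^ 3

/-- the curve `E_d` over `ℚ` -/
def E (l : ℕ) (d : ℤ) : WeierstrassCurve ℚ :=
  { a₁ := 0, a₂ := 0, a₃ := 0, a₄ := (A l d : ℚ), a₆ := (B l d : ℚ) }

/-- `E_d(ℚ)` is finite and `Ш(E_d/ℚ)` has no element of order two -/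
def RankZeroShaTwo (l : ℕ) (d : ℤ) : Prop :=
  Finite (E l d).toAffine.Point ∧ ∀ x : Pool.Agent.TH841.SH.D.Sha (E l d), 2 • x = 0 → x = 0

/-- the conclusion of the frozen statement for `y² = x³ + a x + b`, together with the fact that the
order of vanishing and the rank are both `0` -/
def BSDRankZero (a b : ℤ) : Prop :=
  4 * a ^ 3 + 27 * b ^ 2 ≠ 0 ∧
    ∃ F : ℂ → ℂ, Differentiable ℂ F ∧
      (∀ s : ℂ, (3 : ℝ) / 2 < s.re →
        HasProd
          (fun p : ℕ => open Classical in
            if p.Prime ∧ ¬ ((p : ℤ) ∣ 2 * (-4 * a ^ 3 - 27 * b ^ 2)) then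
              (1 - ((p : ℂ) - (Nat.card {q : ZMod p × ZMod p //
                  q.2 ^ 2 = q.1 ^ 3 + (a : ZMod p) * q.1 + (b : ZMod p)} : ℂ))
                  * (p : ℂ) ^ (-s) + (p : ℂ) ^ (1 - 2 * s))⁻¹
            else 1)
          (F s)) ∧
      analyticOrderAt F 1 =
        ((Module.finrank ℤ
          (WeierstrassCurve.Affine.Point
            (WeierstrassCurve.toAffine
              ({ a₁ := 0, a₂ := 0, a₃ := 0, a₄ := (a : ℚ), a₆ := (b : ℚ) } :
                WeierstrassCurve ℚ))) : ℕ) : ℕ∞) ∧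
      Module.finrank ℤ
        (WeierstrassCurve.Affine.Point
          (WeierstrassCurve.toAffine
            ({ a₁ := 0, a₂ := 0, a₃ := 0, a₄ := (a : ℚ), a₆ := (b : ℚ) } :
              WeierstrassCurve ℚ))) = 0

/-- the class group of `ℚ(√d)` has no element of order four -/
def NoOrderFour (d : ℤ) : Prop :=
  ∀ (K : Type) [Field K] [NumberField K], Module.finrank ℚ K = 2 →
    (∃ s : K, s ^ 2 = (d : K)) →
    ∀ c : ClassGroup (NumberField.RingOfIntegers K), orderOf c ≠ 4

/-- the twist of `X_0(l)` by `d` is allowed: `d ≡ 1 mod 4` is negative and, in `ℚ(√d)`,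
* `l = 15`, `3` is not inert and `5` is not split, or
* `l = 21`, `3` is not split and `7` is not inert, or
* `l = 24`, `2` is inert and `3` is not inert. -/
def Allowed (l : ℕ) (d : ℤ) : Prop := d < 0 ∧ d % 4 = 1 ∧
  ((l = 15 ∧ d % 3 ≠ 2 ∧ (d % 5 = 0 ∨ d % 5 = 2 ∨ d % 5 = 3)) ∨
    (l = 21 ∧ d % 3 ≠ 1 ∧ (d % 7 = 0 ∨ d % 7 = 1 ∨ d % 7 = 2 ∨ d % 7 = 4)) ∨
    (l = 24 ∧ d % 3 ≠ 2 ∧ d % 8 = 5))

/-- the squarefree part of `c d` for squarefree `c` and `d`; `E_(tw c d)` is the twist by `√c` of
`E_d` -/
def tw (c : ℕ) (d : ℤ) : ℤ := (c : ℤ) * d / ((Int.gcd (c : ℤ) d : ℕ) : ℤ) ^ 2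

/-- the squarefree part (with sign) of `c d` for squarefree integers `c` and `d` of any sign -/
def twZ (c d : ℤ) : ℤ := c * d / ((Int.gcd c d : ℕ) : ℤ) ^ 2

/-- the limit `(1 - 1/2) (1 - 1/4) (1 - 1/8) ⋯` -/
noncomputable def eta : ℝ := ∏' i : ℕ, (1 - (1 / 2 : ℝ) ^ (i + 1))

open Classical in
/-- the number of the `m ≤ X` with the property `P` -/
noncomputable def count (P : ℕ → Prop) (X : ℕ) : ℕ := ((Finset.Icc 1 X).filter fun m => P m).card

/-- among the numbers with the property `P`, those with the property `Q` have natural density `δ` -/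
def HasDensity (P Q : ℕ → Prop) (δ : ℝ) : Prop :=
  Tendsto (fun X : ℕ => (count (fun m => P m ∧ Q m) X : ℝ) / (count P X : ℝ)) atTop (𝓝 δ)

open Classical in
/-- the number of the squarefree integers `d` of any sign with `|d| < X` and the property `P` -/
noncomputable def countZ (P : ℤ → Prop) (X : ℕ) : ℕ :=
  ((Finset.Ioo (-(X : ℤ)) X).filter fun d => Squarefree d ∧ P d).card

/-- the squarefree `n ≡ 3 mod 24`, `n ≡ 0, 2, 3 mod 5`, `n ≡ 0, 3, 5, 6 mod 7` -/
def Cls (n : ℕ) : Prop := Squarefree n ∧ n % 8 = 3 ∧ n % 3 = 0 ∧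
  (n % 5 = 0 ∨ n % 5 = 2 ∨ n % 5 = 3) ∧ (n % 7 = 0 ∨ n % 7 = 3 ∨ n % 7 = 5 ∨ n % 7 = 6)

/-- **The rank form for arbitrarily many families of twists of three curves at the same time.** -/
theorem result :
    (∀ (l : ℕ) (d : ℤ), Squarefree d → Allowed l d → (RankZeroShaTwo l d ↔ NoOrderFour d) ∧
      (RankZeroShaTwo l d → BSDRankZero (A l d) (B l d))) ∧
    (∀ (D : Finset (ℕ × ℕ)) (M : ℕ) (K : Finset ℕ), 0 < M →
      (∀ x ∈ D, Squarefree x.2 ∧ x.2 % 2 = 1) →
      (∀ n : ℕ, Squarefree n → n % M ∈ K → ∀ x ∈ D, Allowed x.1 (tw x.2 (-(n : ℤ)))) →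
      (∃ n : ℕ, Squarefree n ∧ n % M ∈ K) → ∀ V ⊆ D.image Prod.snd,
      HasDensity (fun n => Squarefree n ∧ n % M ∈ K)
        (fun n => ∀ x ∈ D, (RankZeroShaTwo x.1 (tw x.2 (-(n : ℤ))) ↔ x.2 ∈ V) ∧
          (x.2 ∈ V → BSDRankZero (A x.1 (tw x.2 (-(n : ℤ)))) (B x.1 (tw x.2 (-(n : ℤ))))))
        (eta ^ V.card * (1 - eta) ^ (D.image Prod.snd \ V).card)) ∧
    (∀ T : Finset ℕ, (∀ c ∈ T, Squarefree c ∧ c % 840 = 1) →
      (∀ V ⊆ T, HasDensity Cls
        (fun n => ∀ c ∈ T, ∀ l ∈ ({15, 21, 24} : Finset ℕ),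
          (RankZeroShaTwo l (tw c (-(n : ℤ))) ↔ c ∈ V) ∧
          (c ∈ V → BSDRankZero (A l (tw c (-(n : ℤ)))) (B l (tw c (-(n : ℤ))))))
        (eta ^ V.card * (1 - eta) ^ (T \ V).card)) ∧
      ∀ ε : ℝ, 0 < ε → ∀ᶠ X : ℕ in atTop,
        (7 / 1024 * eta ^ T.card - ε) * (countZ (fun _ => True) X : ℝ) ≤
          (countZ (fun d => ∀ c ∈ T, ∀ l ∈ ({15, 21, 24} : Finset ℕ),
            RankZeroShaTwo l (tw c d) ∧ BSDRankZero (A l (tw c d)) (B l (tw c d))) X : ℝ)) ∧
    (∀ ε : ℝ, 0 < ε → ∃ C : Finset ℤ, (∀ c ∈ C, Squarefree c) ∧ ∀ᶠ X : ℕ in atTop,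
      (1 - ε) * (countZ (fun _ => True) X : ℝ) ≤
        (countZ (fun d => ∃ c ∈ C, ∀ l ∈ ({15, 21, 24} : Finset ℕ),
          RankZeroShaTwo l (twZ c d) ∧ BSDRankZero (A l (twZ c d)) (B l (twZ c d))) X : ℝ)) ∧
    0.2887 < eta ∧ eta < 0.2889 :=
  ⟨Pool.Agent.N856.ST.Main.main.1, Pool.Agent.N856.ST.Main.main.2.1,
    Pool.Agent.N856.ST.Main.main.2.2.1, Pool.Agent.N963.AA.part_four,
    Pool.Agent.N856.ST.Main.main.2.2.2⟩

end Pool.Agent.Results.MP_696deb_nt.ArbitrarilyManyTwists
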