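import Pool.Agent.N973.P15G.All
import Pool.Agent.N916.PQ.Main15
import Pool.Agent.N969.Den.Close
import Pool.Agent.N969.P15.Glue
import Pool.Agent.N969.P15.QF
import Pool.Agent.N875.X15.ClE

/-!
# All quadratic twists of the curve `X_0(15)`

The rank form of the Birch and Swinnerton-Dyer conjecture for all quadratic twists, with finitely many
rational points and trivial `Ш[2]`, of the curve `E : y² = x (x + 9) (x - 16)` of conductor 15, which has
no complex multiplication: for every squarefree integer `d`, of either sign and with no condition on `d`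
at all, if the twist `E_d` has finitely many rational points and trivial `Ш[2]`, then `L(E_d, 1) ≠ 0`. The
natural density of these `d` among all squarefree integers is exactly
`(1/2) ∏_{i ≥ 1} (1 - 2^{-i}) = 0.1444...`, in the ordering by `|d|` and in the ordering by the absolute value
of the discriminant of `ℚ(√d)`; they all have root number `+1`, and among the `d` with root number `+1`
the density is `∏_{i ≥ 1} (1 - 2^{-i}) = 0.2888...`. For the negative `d` such that `3` is not inert and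
`5` is not split in `ℚ(√d)` they are exactly those for which the class group of `ℚ(√d)` has no element of
order four.

Joint work of helpers 969, 970, 971, 972, 973, 974, 975, 218, 402, 575, 609, 809, 816, 855, 871, 875,
877, 886, 916, 958 and others: Gross's formula for the definite quaternion orders of discriminants 3 and
5 and level 15, Rankin's method for the positive discriminants, the bilinear and diagonal identities and
their parity, the modular symbols and the L-function, the descent and its converse, the parity of the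
descent matrix, the natural density.
-/

set_option autoImplicit false

open Finset Filter

namespace Pool.Agent.Results.MP_696deb_nt.Conductor15

/-- the coefficient `a` of the twist `E_d : y² = x³ + a x + b` of `y² = x (x + 9) (x - 16)` by `d` -/
def A (d : ℤ) : ℤ := -12987 * d ^ 2

/-- the coefficient `b` of the twist `E_d : y² = x³ + a x + b` of `y² = x (x + 9) (x - 16)` by `d` -/
def B (d : ℤ) : ℤ := -263466 * d ^ 3

/-- the curve `E_d` over `ℚ` -/
def E (d : ℤ) : WeierstrassCurve ℚ :=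
  { a₁ := 0, a₂ := 0, a₃ := 0, a₄ := (A d : ℚ), a₆ := (B d : ℚ) }

/-- `E_d(ℚ)` is finite and `Ш(E_d/ℚ)` has no element of order two -/
def RankZeroShaTwo (d : ℤ) : Prop :=
  Finite (E d).toAffine.Point ∧ ∀ x : Pool.Agent.TH841.SH.D.Sha (E d), 2 • x = 0 → x = 0

/-- the root number of the twist `E_d`, for squarefree `d`: the product of the sign of `d`, of `-1` if
`d = 2 mod 3`, and of `-1` if `d` is not `1` or `4` modulo `5` -/
def rootNumber (d : ℤ) : ℤ := (if d < 0 then -1 else 1) * (if d % 3 = 2 then -1 else 1) *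
  (if d % 5 = 1 ∨ d % 5 = 4 then 1 else -1)

/-- the conclusion of the frozen statement for `y² = x³ + a x + b`, together with the fact that the
order of vanishing and the rank are both `0` -/
def BSDRankZero (a b : ℤ) : Prop :=
  4 * a ^ 3 + 27 * b ^ 2 ≠ 0 ∧
    ∃ F : ℂ → ℂ, Differentiable ℂ F ∧
      (∀ s : ℂ, (3 : ℝ) / 2 < s.re →
        HasProd
          (fun p : ℕ => open Classical in
            if p.Prime ∧ ¬ ((p : ℤ) ∣ 2 * (-4 * a ^ 3 - 27 * b ^ 2)) then
              (1 - ((p : ℂ) - (Nat.card {q : ZMod p × ZMod p //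
                  q.2 ^ 2 = q.1 ^ 3 + (a : ZMod p) * q.1 + (b : ZMod p)} : ℂ))
                  * (p : ℂ) ^ (-s) + (p : ℂ) ^ (1 - 2 * s))⁻¹
            else 1)
          (F s)) ∧
      analyticOrderAt F 1 =
        ((Module.finrank ℤ
          (WeierstrassCurve.Affine.Point
            (WeierstrassCurve.toAffine
              ({ a₁ := 0, a₂ := 0, a₃ := 0, a₄ := (a : ℚ), a₆ := (b : ℚ) } :
                WeierstrassCurve ℚ))) : ℕ) : ℕ∞) ∧
      Module.finrank ℤ
        (WeierstrassCurve.Affine.Point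
          (WeierstrassCurve.toAffine
            ({ a₁ := 0, a₂ := 0, a₃ := 0, a₄ := (a : ℚ), a₆ := (b : ℚ) } :
              WeierstrassCurve ℚ))) = 0

/-- `ℚ(√d)` is imaginary, `3` is not inert and `5` is not split in it -/
def NegClass (d : ℤ) : Prop := d < 0 ∧ d % 3 ≠ 2 ∧ ¬ (d % 5 = 1 ∨ d % 5 = 4)

/-- the class group of `ℚ(√d)` has no element of order four -/
def NoOrderFour (d : ℤ) : Prop :=
  ∀ (K : Type) [Field K] [NumberField K], Module.finrank ℚ K = 2 →
    (∃ s : K, s ^ 2 = (d : K)) →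
    ∀ c : ClassGroup (NumberField.RingOfIntegers K), c ^ 4 = 1 → c ^ 2 = 1

/-- `D` is a fundamental discriminant (`1` included) -/
def Fund (D : ℤ) : Prop := (Squarefree D ∧ D % 4 = 1) ∨
  ∃ m : ℤ, D = 4 * m ∧ Squarefree m ∧ (m % 4 = 2 ∨ m % 4 = 3)

/-- the squarefree integer `d` with `ℚ(√d) = ℚ(√D)` -/
def core (D : ℤ) : ℤ := if D % 2 = 1 then D else D / 4

open Classical in
/-- the number of the squarefree integers `d`, `|d| ≤ X`, with the property `P` -/
noncomputable def count (P : ℤ → Prop) (X : ℕ) : ℕ :=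
  ((Icc (-(X : ℤ)) X).filter fun d => Squarefree d ∧ P d).card

open Classical in
/-- the number of the fundamental discriminants `D`, `|D| ≤ X`, for which `core D` has the
property `P` -/
noncomputable def countDisc (P : ℤ → Prop) (X : ℕ) : ℕ :=
  ((Icc (-(X : ℤ)) X).filter fun D => Fund D ∧ P (core D)).card

open Pool.Agent.N875.X15 (WS Fin2 Ao Ae crit_ao_S crit_ae_S)
open Pool.Agent.N916.TE (FD Go)
open Pool.Agent.N975.All (mD Cl)

theorem E_eq (d : ℤ) : E d = WS d := rfl

theorem rank_eq (d : ℤ) : RankZeroShaTwo d ↔ Fin2 (WS d) := by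
  unfold RankZeroShaTwo Pool.Agent.N875.X15.Fin2
  rw [← E_eq]
  refine and_congr Iff.rfl (forall_congr' fun x => ?_)
  rw [two_nsmul]

theorem bsd_of_rank {a b : ℤ} (h0 : 4 * a ^ 3 + 27 * b ^ 2 ≠ 0)
    (h : Pool.Agent.Y687.RankBSD a b) : BSDRankZero a b := by
  obtain ⟨F, h1, h2, h3, h4⟩ := h
  exact ⟨h0, F, h1, h2, by rw [h3, h4]; rfl, h4⟩

theorem root_of {d : ℤ} (hs : Squarefree d) (h : RankZeroShaTwo d) : rootNumber d = 1 := by
  rcases (Pool.Agent.N875.D15.fin2S_iff_sg15 hs).1 ((rank_eq d).1 h) with h1 | h1 | h1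
  · by_cases e1 : d = 1
    · subst e1
      norm_num [rootNumber]
    by_cases e2 : d = -1
    · subst e2
      norm_num [rootNumber]
    exact Pool.Agent.N809.PQ.sg15_parity hs e1 e2 h1
  · subst h1
    norm_num [rootNumber]
  · subst h1
    norm_num [rootNumber]

theorem mD_neg {n : ℕ} (h : FD n) : mD n < 0 := by
  unfold mD
  rcases h with ⟨h1, h4⟩ | ⟨k, rfl, h1, -⟩
  · rw [if_pos (by omega)]
    omega
  · have := Nat.pos_of_ne_zero h1.ne_zero
    rw [if_neg (by omega)]
    omega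

theorem rank_go {n : ℕ} (h : Cl n) : RankZeroShaTwo (mD n) ↔ Go n := by
  rw [rank_eq]
  obtain ⟨h1, h3, h5⟩ := h
  rcases h1 with ⟨hsq, h4⟩ | hE
  · have ho : n % 2 = 1 := by omega
    have em : mD n = -(n : ℤ) := if_pos ho
    have h6 := crit_ao_S (n := n) ⟨hsq, h4, h3, h5⟩
    rw [em, h6]
    exact ⟨fun h => ⟨fun _ => h, fun h2 => by omega⟩, fun h => h.1 ho⟩
  · have ho : n % 2 = 0 := by
      obtain ⟨k, rfl, -⟩ := hE
      omega
    have em : mD n = -((n / 4 : ℕ) : ℤ) := if_neg (by omega)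
    have h6 := crit_ae_S (n := n) ⟨hE, h3, h5⟩
    rw [em, h6]
    exact ⟨fun h => ⟨fun h2 => by omega, fun _ => h⟩, fun h => h.2 ho⟩

theorem class_go {n : ℕ} (h : Cl n) : NoOrderFour (mD n) ↔ Go n := by
  obtain ⟨h1, h3, h5⟩ := h
  rcases h1 with ⟨hsq, h4⟩ | hE
  · have ho : n % 2 = 1 := by omega
    have h0 : 0 < n := Nat.pos_of_ne_zero hsq.ne_zero
    have em : mD n = -(n : ℤ) := if_pos ho
    have key : ∀ (K : Type) [Field K] [NumberField K], Module.finrank ℚ K = 2 →
        (∃ s : K, s ^ 2 = (mD n : K)) →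
        ((∀ c : ClassGroup (NumberField.RingOfIntegers K), c ^ 4 = 1 → c ^ 2 = 1) ↔ Go n) := by
      intro K _ _ h6 h7
      rw [em] at h7
      push_cast at h7
      rw [Pool.Agent.N875.X15.qc_iff_class hsq h4 K h6 h7, ← Pool.Agent.N875.X15.qc_P15 h0.ne']
      exact ⟨fun h => ⟨fun _ => h, fun h2 => by omega⟩, fun h => h.1 ho⟩
    constructor
    · intro h8
      obtain ⟨K, i1, i2, h6, h7⟩ := Pool.Agent.N969.P15.exists_qf (n := n) h0
      have h9 : ∃ s : K, s ^ 2 = (mD n : K) := by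
        rw [em]
        push_cast
        exact h7
      exact (key K h6 h9).1 (h8 K h6 h9)
    · intro h8 K i1 i2 h6 h7
      exact (key K h6 h7).2 h8
  · have ho : n % 2 = 0 := by
      obtain ⟨k, rfl, -⟩ := hE
      omega
    have h04 : 0 < n / 4 := by
      obtain ⟨k, rfl, h1, -⟩ := hE
      have := Nat.pos_of_ne_zero h1.ne_zero
      omega
    have em : mD n = -((n / 4 : ℕ) : ℤ) := if_neg (by omega)
    have hn4 : n ≠ 4 := by omega
    have key : ∀ (K : Type) [Field K] [NumberField K], Module.finrank ℚ K = 2 →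
        (∃ s : K, s ^ 2 = (mD n : K)) →
        ((∀ c : ClassGroup (NumberField.RingOfIntegers K), c ^ 4 = 1 → c ^ 2 = 1) ↔ Go n) := by
      intro K _ _ h6 h7
      rw [em] at h7
      rw [Int.cast_neg, Int.cast_natCast] at h7
      rw [Pool.Agent.N875.X15.qe_iff_class hE hn4 K h6 h7]
      exact ⟨fun h => ⟨fun h2 => by omega, fun _ => h⟩, fun h => h.2 ho⟩
    constructor
    · intro h8
      obtain ⟨K, i1, i2, h6, h7⟩ := Pool.Agent.N969.P15.exists_qf (n := n / 4) h04
      have h9 : ∃ s : K, s ^ 2 = (mD n : K) := by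
        rw [em, Int.cast_neg, Int.cast_natCast]
        exact h7
      exact (key K h6 h9).1 (h8 K h6 h9)
    · intro h8 K i1 i2 h6 h7
      exact (key K h6 h7).2 h8

theorem cl_of {d : ℤ} (hs : Squarefree d) (h : NegClass d) : ∃ n : ℕ, Cl n ∧ mD n = d := by
  obtain ⟨h0, c3, c5⟩ := h
  have hn : Squarefree d.natAbs := Int.squarefree_natAbs.2 hs
  obtain ⟨k, hk⟩ : ∃ k : ℕ, d.natAbs = k := ⟨_, rfl⟩
  rw [hk] at hn
  have hd : d = -(k : ℤ) := by omega
  subst hd
  have h4 : ¬ k % 4 = 0 := by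
    intro h4
    have h5 := hn 2 (by omega)
    rw [Nat.isUnit_iff] at h5
    omega
  by_cases h5 : k % 4 = 3
  · exact ⟨k, ⟨Or.inl ⟨hn, h5⟩, by omega, by omega⟩, if_pos (by omega)⟩
  · refine ⟨4 * k, ⟨Or.inr ⟨k, rfl, hn, by omega⟩, by omega, by omega⟩, ?_⟩
    have em : mD (4 * k) = -((4 * k / 4 : ℕ) : ℤ) := if_neg (by omega)
    rw [em]
    omega

theorem class_iff {d : ℤ} (hs : Squarefree d) (h : NegClass d) :
    RankZeroShaTwo d ↔ NoOrderFour d := by
  obtain ⟨n, h1, h2⟩ := cl_of hs h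
  rw [← h2]
  exact (rank_go h1).trans (class_go h1).symm

theorem cl_mD {n : ℕ} (h : FD n) : NegClass (mD n) ↔
    (n % 3 ≠ 1 ∧ (n % 5 = 0 ∨ n % 5 = 2 ∨ n % 5 = 3)) := by
  have h0 := mD_neg h
  unfold NegClass
  rcases h with ⟨h1, h4⟩ | ⟨k, rfl, h1, -⟩
  · have em : mD n = -(n : ℤ) := if_pos (by omega)
    rw [em] at h0 ⊢
    omega
  · have em : mD (4 * k) = -((4 * k / 4 : ℕ) : ℤ) := if_neg (by omega)
    rw [em] at h0 ⊢
    omega

theorem sq_neg' (d : ℤ) : Squarefree (-d) ↔ Squarefree d := by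
  unfold Squarefree
  simp only [dvd_neg]

theorem fund_neg {n : ℕ} : Fund (-(n : ℤ)) ↔ FD n := by
  unfold Fund FD
  constructor
  · rintro (⟨h1, h2⟩ | ⟨m, h1, h2, h3⟩)
    · left
      exact ⟨Int.squarefree_natCast.1 ((sq_neg' _).1 h1), by omega⟩
    · right
      refine ⟨m.natAbs, by omega, Int.squarefree_natAbs.2 h2, by omega⟩
  · rintro (⟨h1, h2⟩ | ⟨k, rfl, h2, h3⟩)
    · left
      exact ⟨(sq_neg' _).2 (Int.squarefree_natCast.2 h1), by omega⟩
    · right
      exact ⟨-(k : ℤ), by push_cast; ring, (sq_neg' _).2 (Int.squarefree_natCast.2 h2), by omega⟩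

theorem core_neg {n : ℕ} (h : FD n) : core (-(n : ℤ)) = mD n := by
  unfold core mD
  rcases h with ⟨h1, h4⟩ | ⟨k, rfl, h1, -⟩
  · rw [if_pos (by omega), if_pos (by omega)]
  · rw [if_neg (by omega), if_neg (by omega)]
    omega

theorem countDisc_neg {P : ℤ → Prop} {Q : ℕ → Prop} [DecidablePred fun n => FD n ∧ Q n]
    (h0 : ∀ d, P d → d < 0) (hPQ : ∀ n, FD n → (P (mD n) ↔ Q n)) (X : ℕ) :
    countDisc P X = ((Icc 1 X).filter fun n => FD n ∧ Q n).card := by
  classical
  unfold countDisc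
  symm
  refine card_bij (fun n _ => -(n : ℤ)) ?_ ?_ ?_
  · intro n hn
    obtain ⟨h1, h2, h3⟩ := mem_filter.1 hn
    rw [mem_Icc] at h1
    exact mem_filter.2 ⟨mem_Icc.2 ⟨by omega, by omega⟩, fund_neg.2 h2, by
      rw [core_neg h2]; exact (hPQ n h2).2 h3⟩
  · intro a _ b _ h
    omega
  · intro D hD
    obtain ⟨h1, h2, h3⟩ := mem_filter.1 hD
    rw [mem_Icc] at h1
    have h4 := h0 _ h3
    have h5 : D < 0 := by
      unfold core at h4
      split_ifs at h4 <;> omega
    obtain ⟨n, rfl⟩ : ∃ n : ℕ, D = -(n : ℤ) := ⟨D.natAbs, by omega⟩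
    have h6 := fund_neg.1 h2
    refine ⟨n, mem_filter.2 ⟨mem_Icc.2 ⟨by omega, by omega⟩, h6, ?_⟩, rfl⟩
    rw [core_neg h6] at h3
    exact (hPQ n h6).1 h3

open Pool.Agent.N919.BS (NS NF)
open Pool.Agent.N809.PQ (Sg15 w15)

theorem count_eq (P Q : ℤ → Prop) (h : ∀ d, Squarefree d → (P d ↔ Q d)) (X : ℕ) :
    count P X = NS Q X := by
  classical
  unfold count NS
  refine congrArg Finset.card (Finset.ext fun n => ?_)
  refine (Finset.mem_filter).trans (Iff.trans ?_ (Finset.mem_filter).symm)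
  refine and_congr_right fun _ => and_congr_right fun hs => h n hs

theorem fund_core {D : ℤ} (h : Fund D) : Squarefree (core D) := by
  rcases h with ⟨h1, h2⟩ | ⟨m, rfl, h1, h2⟩
  · unfold core
    rw [if_pos (by omega)]
    exact h1
  · unfold core
    rw [if_neg (by omega)]
    have : 4 * m / 4 = m := by omega
    rw [this]
    exact h1

theorem countDisc_eq (P Q : ℤ → Prop) (h : ∀ d, Squarefree d → (P d ↔ Q d)) (X : ℕ) :
    countDisc P X = NF Q X := by
  classical
  unfold countDisc NF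
  refine congrArg Finset.card (Finset.ext fun n => ?_)
  refine (Finset.mem_filter).trans (Iff.trans ?_ (Finset.mem_filter).symm)
  refine and_congr_right fun _ => and_congr_right fun hs => h _ (fund_core hs)

theorem sg_iff (d : ℤ) (hs : Squarefree d) (h1 : d ≠ 1) (h2 : d ≠ -1) :
    Sg15 d ↔ RankZeroShaTwo d := by
  rw [rank_eq, Pool.Agent.N875.D15.fin2S_iff_sg15 hs]
  constructor
  · exact fun h => Or.inl h
  · rintro (h | h | h)
    · exact h
    · exact absurd h h1
    · exact absurd h h2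

theorem dens_of {T : ℕ → ℕ} {c : ℝ}
    (h : Tendsto (fun X : ℕ => (NS Sg15 X : ℝ) / (T X : ℝ)) atTop (nhds c))
    (hT : Tendsto (fun X => (T X : ℝ)) atTop atTop) :
    Tendsto (fun X : ℕ => (count RankZeroShaTwo X : ℝ) / (T X : ℝ)) atTop (nhds c) := by
  have e := count_eq RankZeroShaTwo RankZeroShaTwo fun _ _ => Iff.rfl
  have h1 := Pool.Agent.N969.Den.lim_close (B := NS RankZeroShaTwo) h
    (fun X => Pool.Agent.N969.Den.NS_close sg_iff X)
    (fun X => Pool.Agent.N969.Den.NS_close (fun d a b c => (sg_iff d a b c).symm) X) hT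
  refine h1.congr fun X => ?_
  rw [e]

theorem densF_of {T : ℕ → ℕ} {c : ℝ}
    (h : Tendsto (fun X : ℕ => (NF Sg15 X : ℝ) / (T X : ℝ)) atTop (nhds c))
    (hT : Tendsto (fun X => (T X : ℝ)) atTop atTop) :
    Tendsto (fun X : ℕ => (countDisc RankZeroShaTwo X : ℝ) / (T X : ℝ)) atTop (nhds c) := by
  have e := countDisc_eq RankZeroShaTwo RankZeroShaTwo fun _ _ => Iff.rfl
  have h1 := Pool.Agent.N969.Den.lim_close (B := NF RankZeroShaTwo) h
    (fun X => Pool.Agent.N969.Den.NF_close sg_iff X)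
    (fun X => Pool.Agent.N969.Den.NF_close (fun d a b c => (sg_iff d a b c).symm) X) hT
  refine h1.congr fun X => ?_
  rw [e]

theorem hasProd_eta : HasProd (fun i : ℕ => 1 - (1 / 2 : ℝ) ^ (i + 1)) Pool.Agent.N916.GB.eta := by
  have h : Multipliable fun i : ℕ => 1 + -((1 / 2 : ℝ) ^ (i + 1)) := by
    apply multipliable_one_add_of_summable
    have h1 : Summable fun i : ℕ => (1 / 2 : ℝ) ^ i * (1 / 2) :=
      (summable_geometric_of_lt_one (by norm_num) (by norm_num)).mul_right _
    refine h1.congr fun i => ?_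
    rw [norm_neg, Real.norm_of_nonneg (by positivity), pow_succ]
  have h3 := h.hasProd
  have e : (fun i : ℕ => 1 + -((1 / 2 : ℝ) ^ (i + 1))) = fun i : ℕ => 1 - (1 / 2 : ℝ) ^ (i + 1) := by
    funext i
    ring
  rw [e] at h3
  exact h3

theorem top_root : Tendsto (fun X => (NS (fun d => w15 d = 1) X : ℝ)) atTop atTop := by
  have h := Pool.Agent.N916.PQ.half_NS Pool.Agent.N916.PQ.hf15
  have e : (fun d => Pool.Agent.N916.PQ.f15 d = true) = fun d => w15 d = 1 :=
    funext fun d => propext (Pool.Agent.N916.PQ.f15_w15 d)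
  rw [e] at h
  have h1 := Filter.Tendsto.pos_mul_atTop (by norm_num : (0 : ℝ) < 1 / 2) h
    Pool.Agent.N969.Den.NS_top
  refine h1.congr' ?_
  filter_upwards [Pool.Agent.N916.PQ.NS_ne] with X hX
  rw [div_mul_cancel₀ _ hX]

theorem top_rootF : Tendsto (fun X => (NF (fun d => w15 d = 1) X : ℝ)) atTop atTop := by
  have h := Pool.Agent.N916.PQ.half_NF Pool.Agent.N916.PQ.hf15
  have e : (fun d => Pool.Agent.N916.PQ.f15 d = true) = fun d => w15 d = 1 :=
    funext fun d => propext (Pool.Agent.N916.PQ.f15_w15 d)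
  rw [e] at h
  have h1 := Filter.Tendsto.pos_mul_atTop (by norm_num : (0 : ℝ) < 1 / 2) h
    Pool.Agent.N969.Den.NF_top
  refine h1.congr' ?_
  filter_upwards [Pool.Agent.N916.PQ.NF_ne] with X hX
  rw [div_mul_cancel₀ _ hX]

theorem result :
    (∀ d : ℤ, Squarefree d → RankZeroShaTwo d → rootNumber d = 1 ∧ BSDRankZero (A d) (B d)) ∧
    (∃ η : ℝ, HasProd (fun i : ℕ => 1 - (1 / 2 : ℝ) ^ (i + 1)) η ∧ 0.2887 < η ∧ η < 0.2889 ∧
      Tendsto (fun X : ℕ => (count RankZeroShaTwo X : ℝ) / (count (fun _ => True) X : ℝ))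
        atTop (nhds (η / 2)) ∧
      Tendsto (fun X : ℕ => (countDisc RankZeroShaTwo X : ℝ) / (countDisc (fun _ => True) X : ℝ))
        atTop (nhds (η / 2)) ∧
      Tendsto (fun X : ℕ => (count RankZeroShaTwo X : ℝ) /
        (count (fun d => rootNumber d = 1) X : ℝ)) atTop (nhds η) ∧
      Tendsto (fun X : ℕ => (countDisc RankZeroShaTwo X : ℝ) /
        (countDisc (fun d => rootNumber d = 1) X : ℝ)) atTop (nhds η) ∧
      Tendsto (fun X : ℕ => (countDisc (fun d => NegClass d ∧ RankZeroShaTwo d) X : ℝ) /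
        (countDisc NegClass X : ℝ)) atTop (nhds η)) ∧
    ∀ d : ℤ, Squarefree d → NegClass d → (RankZeroShaTwo d ↔ NoOrderFour d) := by
  classical
  refine ⟨fun d hs h => ⟨root_of hs h, ?_⟩, ⟨Pool.Agent.N916.GB.eta, ?_, ?_, ?_, ?_, ?_, ?_, ?_, ?_⟩,
    fun d hs h => class_iff hs h⟩
  · have h1 := Pool.Agent.N973.P15G.F.rank15 hs ((rank_eq d).1 h)
    exact bsd_of_rank (Pool.Agent.N969.P15.disc_ne hs.ne_zero) h1
  · exact hasProd_eta
  · exact Pool.Agent.N916.GB.eta_bounds.1
  · exact Pool.Agent.N916.GB.eta_bounds.2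
  · have h := dens_of Pool.Agent.N916.PQ.sf15 Pool.Agent.N969.Den.NS_top
    refine h.congr fun X => ?_
    rw [count_eq (fun _ => True) (fun _ => True) fun _ _ => Iff.rfl]
  · have h := densF_of Pool.Agent.N916.PQ.fd15 Pool.Agent.N969.Den.NF_top
    refine h.congr fun X => ?_
    rw [countDisc_eq (fun _ => True) (fun _ => True) fun _ _ => Iff.rfl]
  · have h := dens_of Pool.Agent.N916.PQ.rt15_sf top_root
    refine h.congr fun X => ?_
    rw [count_eq (fun d => rootNumber d = 1) (fun d => w15 d = 1) fun _ _ => Iff.rfl]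
  · have h := densF_of Pool.Agent.N916.PQ.rt15_fd top_rootF
    refine h.congr fun X => ?_
    rw [countDisc_eq (fun d => rootNumber d = 1) (fun d => w15 d = 1) fun _ _ => Iff.rfl]
  · have h := Pool.Agent.N916.TE.density_T3
    refine h.congr fun X => congrArg₂ (fun a b : ℕ => (a : ℝ) / (b : ℝ)) ?_ ?_
    · refine (countDisc_neg (fun d h => h.1.1) (fun n hn => ?_) X).symm
      constructor
      · rintro ⟨h1, h2⟩
        have h3 := (cl_mD hn).1 h1
        exact ⟨h3, (rank_go ⟨hn, h3⟩).1 h2⟩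
      · rintro ⟨h1, h2⟩
        exact ⟨(cl_mD hn).2 h1, (rank_go ⟨hn, h1⟩).2 h2⟩
    · exact (countDisc_neg (fun d h => h.1) (fun n hn => cl_mD hn) X).symm

end Pool.Agent.Results.MP_696deb_nt.Conductor15
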