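import Pool.Agent.N809.JT.Dnf
import Pool.Agent.N809.JT.Inpf
import Pool.Agent.N973.P21G.All

/-!
# The joint law of the quadratic twists of the curves of conductors 15, 17 and 21

Let `E_{j, d}`, `j = 0, 1, 2`, be the twists, by the squarefree integer `d`, of `y² = x (x + 9) (x - 16)`,
`y² = x (x + 1) (x - 16)`, `y² = x (x - 9) (x + 7)`, curves of conductors `15, 17, 21` without complex
multiplication, no two of which are isogenous. Let `Min j d` be the condition that `E_{j, d}(ℚ)` is finite and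
`Ш(E_{j, d}/ℚ)[2] = 0`. It implies that the root number is `+1` and that the rank form of the Birch and
Swinnerton-Dyer conjecture holds, with rank and order zero. Let `η = ∏ (1 - 2^{-i}) = 0.2888...` and
`θ = ∏ (1 - 2^{-(2i-1)}) = 0.4194...`. We determine the joint law of the three conditions among the `d` for
which the root numbers of two or of all the three twists are `+1`, in every class of `d` given by the sign and by the
residue to an arbitrary modulus, by `|d|` and by the discriminant: the condition of the curve of conductor `17`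
(density `θ`) is independent of the conditions of the two other curves (density `η`, and `4/3 η` in the class
`ExcClass` of conductor `21`), while the conditions of the curves of conductors `15` and `21` coincide in the class
`SameClass` and hold together with density `η/2` in all the other classes. Among all squarefree `d` the conditions
hold for all the three curves with density `8065/110592 η θ = 0.0088...`, and for at least one of them with
density `2737/3072 η + θ/2 - 16393/36864 η θ = 0.4131...`.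

Joint work of helpers 809, 877, 963, 975, 972, 916, 969, 919, 863 and others (JT, JX), on top of the theorems on
the curves of conductors 15, 17, 21 (helpers 969, 970, 971, 972, 973, 974, 975, 99, 218, 402, 575, 609, 637, 809,
816, 844, 855, 871, 875, 877, 886, 890, 916, 919, 958 and others). The criterion of conductor 17 is the
nondegeneracy of a random alternating form, the criteria of conductors 15 and 21 say that Rédei matrices built
with the same symbols have trivial kernels; given independent vectors in these kernels the form is again random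
of the same type; the two Rédei matrices and the one of the exclusive disjunction of the two criteria differ only by one
border, which gives the law of the conditions of conductors 15 and 21.
-/

set_option autoImplicit false

open Finset Filter

namespace Pool.Agent.Results.MP_696deb_nt.ConductorsJointLaw

/-- the coefficients `a` of the curves number `0, 1, 2`: `y² = x (x + 9) (x - 16)`,
`y² = x (x + 1) (x - 16)`, `y² = x (x - 9) (x + 7)` of conductors `15, 17, 21`, written as
`y² = x³ + a x + b` -/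
def coefA : Fin 3 → ℤ := ![-12987, -91, -5211]

/-- the coefficients `b` of the three curves -/
def coefB : Fin 3 → ℤ := ![-263466, -330, -31050]

/-- the coefficient `a` of the twist by `d` of the curve number `j` -/
def A (j : Fin 3) (d : ℤ) : ℤ := coefA j * d ^ 2

/-- the coefficient `b` of the twist by `d` of the curve number `j` -/
def B (j : Fin 3) (d : ℤ) : ℤ := coefB j * d ^ 3

/-- the curve `y² = x³ + a x + b` over `ℚ` -/
def E (a b : ℤ) : WeierstrassCurve ℚ := { a₁ := 0, a₂ := 0, a₃ := 0, a₄ := (a : ℚ), a₆ := (b : ℚ) }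

/-- `E(ℚ)` is finite and `Ш(E/ℚ)` has no element of order two, for `E : y² = x³ + a x + b` -/
def RankZeroShaTwo (a b : ℤ) : Prop :=
  Finite (E a b).toAffine.Point ∧ ∀ x : Pool.Agent.TH841.SH.D.Sha (E a b), 2 • x = 0 → x = 0

/-- the condition `RankZeroShaTwo` for the twist by `d` of the curve number `j` -/
def Min (j : Fin 3) (d : ℤ) : Prop := RankZeroShaTwo (A j d) (B j d)

/-- the root number of the twist by the squarefree `d` of the curve number `j` -/
def rootNumber : Fin 3 → ℤ → ℤ :=
  ![fun d => (if d < 0 then -1 else 1) * (if d % 3 = 2 then -1 else 1) *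
      (if d % 5 = 1 ∨ d % 5 = 4 then 1 else -1),
    fun d => (if d < 0 then -1 else 1) * (if jacobiSym d 17 = 1 then 1 else -1),
    fun d => (if d < 0 then -1 else 1) * (if d % 3 = 1 then 1 else -1) *
      (if d % 7 = 3 ∨ d % 7 = 5 ∨ d % 7 = 6 then -1 else 1)]

/-- the twists by `d` of the curves with numbers in `T` have root number `+1` -/
def Roots (T : Finset (Fin 3)) (d : ℤ) : Prop := ∀ j ∈ T, rootNumber j d = 1

/-- a class which is given by the sign and by the residue modulo `m` -/
def InClass (m : ℕ) (P N : Set ℤ) (d : ℤ) : Prop :=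
  (0 < d ∧ d % (m : ℤ) ∈ P) ∨ (d < 0 ∧ d % (m : ℤ) ∈ N)

/-- `d < 0`, `3` is ramified, `5` is not split and `7` is not inert in `ℚ(√d)` -/
def SameClass (d : ℤ) : Prop := d < 0 ∧ d % 3 = 0 ∧ ¬ (d % 5 = 1 ∨ d % 5 = 4) ∧
  ¬ (d % 7 = 3 ∨ d % 7 = 5 ∨ d % 7 = 6)

/-- `d > 0`, `3` is split and `7` is not inert in `ℚ(√d)` -/
def ExcClass (d : ℤ) : Prop := 0 < d ∧ d % 3 = 1 ∧ ¬ (d % 7 = 3 ∨ d % 7 = 5 ∨ d % 7 = 6)

/-- the product of the densities `η, θ, η` of the curves number `0, 1, 2` over the set `S`, where the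
curves number `0` and `2` contribute together only one factor `η` -/
noncomputable def const (η θ : ℝ) (S : Finset (Fin 3)) : ℝ :=
  (if 0 ∈ S ∨ 2 ∈ S then η else 1) * (if 1 ∈ S then θ else 1)

open Classical in
/-- the weight of `d`: if `S` contains the numbers `0` and `2`, it is `1` in `SameClass` and `1/2`
elsewhere; if `S` contains `2` and not `0`, it is `4/3` in `ExcClass` and `1` elsewhere; otherwise it
is `1` -/
noncomputable def weight (S : Finset (Fin 3)) (d : ℤ) : ℝ :=
  if 0 ∈ S ∧ 2 ∈ S then (if SameClass d then 1 else 1 / 2)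
  else if 2 ∈ S ∧ ExcClass d then 4 / 3 else 1

/-- the conclusion of the frozen statement for `y² = x³ + a x + b`, together with the fact that the
order of vanishing and the rank are both `0` -/
def BSDRankZero (a b : ℤ) : Prop :=
  4 * a ^ 3 + 27 * b ^ 2 ≠ 0 ∧
    ∃ F : ℂ → ℂ, Differentiable ℂ F ∧
      (∀ s : ℂ, (3 : ℝ) / 2 < s.re →
        HasProd
          (fun p : ℕ => open Classical in
            if p.Prime ∧ ¬ ((p : ℤ) ∣ 2 * (-4 * a ^ 3 - 27 * b ^ 2)) then
              (1 - ((p : ℂ) - (Nat.card {q : ZMod p × ZMod p //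
                  q.2 ^ 2 = q.1 ^ 3 + (a : ZMod p) * q.1 + (b : ZMod p)} : ℂ))
                  * (p : ℂ) ^ (-s) + (p : ℂ) ^ (1 - 2 * s))⁻¹
            else 1)
          (F s)) ∧
      analyticOrderAt F 1 =
        ((Module.finrank ℤ
          (WeierstrassCurve.Affine.Point
            (WeierstrassCurve.toAffine
              ({ a₁ := 0, a₂ := 0, a₃ := 0, a₄ := (a : ℚ), a₆ := (b : ℚ) } :
                WeierstrassCurve ℚ))) : ℕ) : ℕ∞) ∧
      Module.finrank ℤ
        (WeierstrassCurve.Affine.Point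
          (WeierstrassCurve.toAffine
            ({ a₁ := 0, a₂ := 0, a₃ := 0, a₄ := (a : ℚ), a₆ := (b : ℚ) } :
              WeierstrassCurve ℚ))) = 0

/-- `D` is a fundamental discriminant (`1` included) -/
def Fund (D : ℤ) : Prop := (Squarefree D ∧ D % 4 = 1) ∨
  ∃ m : ℤ, D = 4 * m ∧ Squarefree m ∧ (m % 4 = 2 ∨ m % 4 = 3)

/-- the squarefree integer `d` with `ℚ(√d) = ℚ(√D)` -/
def core (D : ℤ) : ℤ := if D % 2 = 1 then D else D / 4

open Classical in
/-- the number of the squarefree integers `d`, `|d| ≤ X`, with the property `P` -/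
noncomputable def count (P : ℤ → Prop) (X : ℕ) : ℕ :=
  ((Icc (-(X : ℤ)) X).filter fun d => Squarefree d ∧ P d).card

open Classical in
/-- the number of the fundamental discriminants `D`, `|D| ≤ X`, for which `core D` has the
property `P` -/
noncomputable def countDisc (P : ℤ → Prop) (X : ℕ) : ℕ :=
  ((Icc (-(X : ℤ)) X).filter fun D => Fund D ∧ P (core D)).card

open Classical in
/-- the sum of the weights `w d` of the squarefree integers `d`, `|d| ≤ X`, with the property `P` -/
noncomputable def total (w : ℤ → ℝ) (P : ℤ → Prop) (X : ℕ) : ℝ :=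
  ∑ d ∈ (Icc (-(X : ℤ)) X).filter (fun d => Squarefree d ∧ P d), w d

open Classical in
/-- the sum of the weights `w (core D)` of the fundamental discriminants `D`, `|D| ≤ X`, for which
`core D` has the property `P` -/
noncomputable def totalDisc (w : ℤ → ℝ) (P : ℤ → Prop) (X : ℕ) : ℝ :=
  ∑ D ∈ (Icc (-(X : ℤ)) X).filter (fun D => Fund D ∧ P (core D)), w (core D)

/-- the natural density of the squarefree integers with the property `P` is `ρ`, by absolute value and
by the discriminant -/
def HasDensity (P : ℤ → Prop) (ρ : ℝ) : Prop :=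
  Tendsto (fun X : ℕ => (count P X : ℝ) / (count (fun _ => True) X : ℝ)) atTop (nhds ρ) ∧
  Tendsto (fun X : ℕ => (countDisc P X : ℝ) / (countDisc (fun _ => True) X : ℝ)) atTop (nhds ρ)

open Pool.Agent.N919.BS (NS NF Rt17)
open Pool.Agent.N963.JT (R15 R17)
open Pool.Agent.N809.JT (R21 RR RT WS WF wt cst Cs Eqc)

theorem min0 (d : ℤ) : Min 0 d ↔ R15 d := by
  unfold Min RankZeroShaTwo Pool.Agent.N963.JT.R15 Pool.Agent.N875.X15.Fin2
  have e : E (A 0 d) (B 0 d) = Pool.Agent.N875.X15.WS d := rfl
  rw [← e]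
  refine and_congr Iff.rfl (forall_congr' fun x => ?_)
  rw [two_nsmul]

theorem min1 (d : ℤ) : Min 1 d ↔ R17 d := by
  unfold Min RankZeroShaTwo Pool.Agent.N963.JT.R17 Pool.Agent.N875.X15.Fin2
  have e : E (A 1 d) (B 1 d) = Pool.Agent.N875.P17.WS d := rfl
  rw [← e]
  refine and_congr Iff.rfl (forall_congr' fun x => ?_)
  rw [two_nsmul]

theorem min2 (d : ℤ) : Min 2 d ↔ R21 d := by
  unfold Min RankZeroShaTwo Pool.Agent.N809.JT.R21 Pool.Agent.N875.X15.Fin2
  have e : E (A 2 d) (B 2 d) = Pool.Agent.N637.P21.WS d := rfl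
  rw [← e]
  refine and_congr Iff.rfl (forall_congr' fun x => ?_)
  rw [two_nsmul]

theorem min_iff (j : Fin 3) (d : ℤ) : Min j d ↔ RR j d := by
  fin_cases j
  · exact min0 d
  · exact min1 d
  · exact min2 d

theorem root_iff (j : Fin 3) (d : ℤ) : rootNumber j d = 1 ↔ RT j d := by
  fin_cases j
  · exact decide_eq_true_iff.symm
  · show (if d < 0 then (-1 : ℤ) else 1) * (if jacobiSym d 17 = 1 then 1 else -1) = 1 ↔ Rt17 d
    unfold Pool.Agent.N919.BS.Rt17
    have h0 : d = 0 → jacobiSym d 17 ≠ 1 := by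
      rintro rfl
      norm_num
    by_cases h1 : d < 0 <;> by_cases h2 : jacobiSym d 17 = 1
    · simp only [h1, h2, if_true]
      norm_num
      omega
    · rw [if_pos h1, if_neg h2]
      exact ⟨fun _ => Or.inr ⟨h1, h2⟩, fun _ => by norm_num⟩
    · simp only [h1, h2, if_true, if_false]
      norm_num
      have : d ≠ 0 := fun h => h0 h h2
      omega
    · simp only [h1, h2, if_false]
      norm_num
  · exact decide_eq_true_iff.symm

theorem same_iff (d : ℤ) : SameClass d ↔ Eqc d := Iff.rfl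

theorem exc_iff (d : ℤ) : ExcClass d ↔ Pool.Agent.N809.Red21.fD d = true :=
  (Pool.Agent.N809.Red21.fD_iff d).symm

theorem weight_eq (S : Finset (Fin 3)) : weight S = wt S := by
  classical
  funext d
  unfold weight Pool.Agent.N809.JT.wt
  by_cases h1 : 0 ∈ S ∧ 2 ∈ S
  · rw [if_pos h1, if_pos h1]
    by_cases h2 : SameClass d
    · rw [if_pos h2, if_pos ((same_iff d).1 h2)]
    · rw [if_neg h2, if_neg (fun h => h2 ((same_iff d).2 h))]
  · rw [if_neg h1, if_neg h1]
    by_cases h2 : 2 ∈ S ∧ ExcClass d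
    · rw [if_pos h2, if_pos ⟨h2.1, (exc_iff d).1 h2.2⟩]
    · rw [if_neg h2, if_neg (fun h => h2 ⟨h.1, (exc_iff d).2 h.2⟩)]

theorem count_eq (P Q : ℤ → Prop) (h : ∀ d, P d ↔ Q d) : count P = NS Q := by
  classical
  funext X
  unfold count NS
  refine congrArg Finset.card (Finset.ext fun n => ?_)
  refine (Finset.mem_filter).trans (Iff.trans ?_ (Finset.mem_filter).symm)
  exact and_congr_right fun _ => and_congr_right fun hs => h n

theorem countDisc_eq (P Q : ℤ → Prop) (h : ∀ d, P d ↔ Q d) : countDisc P = NF Q := by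
  classical
  funext X
  unfold countDisc NF
  refine congrArg Finset.card (Finset.ext fun n => ?_)
  refine (Finset.mem_filter).trans (Iff.trans ?_ (Finset.mem_filter).symm)
  exact and_congr_right fun _ => and_congr_right fun hs => h _

theorem total_eq (w : ℤ → ℝ) (P Q : ℤ → Prop) (h : ∀ d, P d ↔ Q d) : total w P = WS w Q := by
  classical
  funext X
  unfold total WS
  refine Finset.sum_congr (Finset.ext fun n => ?_) fun _ _ => rfl
  refine (Finset.mem_filter).trans (Iff.trans ?_ (Finset.mem_filter).symm)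
  exact and_congr_right fun _ => and_congr_right fun hs => h n

theorem totalDisc_eq (w : ℤ → ℝ) (P Q : ℤ → Prop) (h : ∀ d, P d ↔ Q d) :
    totalDisc w P = WF w Q := by
  classical
  funext X
  unfold totalDisc WF
  refine Finset.sum_congr (Finset.ext fun n => ?_) fun _ _ => rfl
  refine (Finset.mem_filter).trans (Iff.trans ?_ (Finset.mem_filter).symm)
  exact and_congr_right fun _ => and_congr_right fun hs => h _

theorem dens_of {P Q : ℤ → Prop} {ρ : ℝ} (h : ∀ d, P d ↔ Q d)
    (h1 : Tendsto (fun X : ℕ => (NS Q X : ℝ) / (NS (fun _ => True) X : ℝ)) atTop (nhds ρ))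
    (h2 : Tendsto (fun X : ℕ => (NF Q X : ℝ) / (NF (fun _ => True) X : ℝ)) atTop (nhds ρ)) :
    HasDensity P ρ := by
  unfold HasDensity
  rw [count_eq P Q h, countDisc_eq P Q h, count_eq (fun _ => True) (fun _ => True) fun _ => Iff.rfl,
    countDisc_eq (fun _ => True) (fun _ => True) fun _ => Iff.rfl]
  exact ⟨h1, h2⟩

theorem bsd_of_rank {a b : ℤ} (h0 : 4 * a ^ 3 + 27 * b ^ 2 ≠ 0)
    (h : Pool.Agent.Y687.RankBSD a b) : BSDRankZero a b := by
  obtain ⟨F, h1, h2, h3, h4⟩ := h
  exact ⟨h0, F, h1, h2, by rw [h3, h4]; rfl, h4⟩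

theorem bsd (j : Fin 3) {d : ℤ} (hs : Squarefree d) (h : RR j d) :
    RT j d ∧ BSDRankZero (A j d) (B j d) := by
  fin_cases j
  · obtain ⟨h1, h2⟩ := Pool.Agent.N963.JT.bsd15 hs h
    exact ⟨(Pool.Agent.N916.PQ.f15_w15 d).2 (Pool.Agent.N963.JT.w15_of hs h), bsd_of_rank h1 h2⟩
  · obtain ⟨h1, h2⟩ := Pool.Agent.N963.JT.bsd17 hs h
    exact ⟨((Pool.Agent.N963.JT.r17_iff hs).1 h).1, bsd_of_rank h1 h2⟩
  · have h1 : 4 * (-5211 * d ^ 2) ^ 3 + 27 * (-31050 * d ^ 3) ^ 2 ≠ 0 := by
      have e : 4 * (-5211 * d ^ 2) ^ 3 + 27 * (-31050 * d ^ 3) ^ 2 = -539978068224 * d ^ 6 := by ring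
      rw [e]
      exact mul_ne_zero (by norm_num) (pow_ne_zero 6 hs.ne_zero)
    refine ⟨?_, bsd_of_rank h1 (Pool.Agent.N973.P21G.rank21 hs h)⟩
    show Pool.Agent.N809.Red21.f21 d = true
    by_cases h2 : d = 1
    · subst h2
      decide
    · rw [Pool.Agent.N809.Red21.f21_iff]
      exact Pool.Agent.N809.D21.parity hs h2 h

theorem hasProd_eta : HasProd (fun i : ℕ => 1 - (1 / 2 : ℝ) ^ (i + 1)) Pool.Agent.N916.GB.eta := by
  have h : Multipliable fun i : ℕ => 1 + -((1 / 2 : ℝ) ^ (i + 1)) := by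
    apply multipliable_one_add_of_summable
    have h1 : Summable fun i : ℕ => (1 / 2 : ℝ) ^ i * (1 / 2) :=
      (summable_geometric_of_lt_one (by norm_num) (by norm_num)).mul_right _
    refine h1.congr fun i => ?_
    rw [norm_neg, Real.norm_of_nonneg (by positivity), pow_succ]
  have h3 := h.hasProd
  have e : (fun i : ℕ => 1 + -((1 / 2 : ℝ) ^ (i + 1))) = fun i : ℕ => 1 - (1 / 2 : ℝ) ^ (i + 1) := by
    funext i
    ring
  rw [e] at h3
  exact h3

theorem hasProd_c2 : HasProd (fun i : ℕ => 1 - (1 / 2 : ℝ) ^ (2 * i + 1)) Pool.Agent.Y703.CQ.c2 := by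
  have h : Multipliable fun i : ℕ => 1 + -((1 / 2 : ℝ) ^ (2 * i + 1)) := by
    apply multipliable_one_add_of_summable
    have h1 : Summable fun i : ℕ => (1 / 4 : ℝ) ^ i * (1 / 2) :=
      (summable_geometric_of_lt_one (by norm_num) (by norm_num)).mul_right _
    refine h1.congr fun i => ?_
    rw [norm_neg, Real.norm_of_nonneg (by positivity), pow_succ, pow_mul]
    norm_num
  have h3 := h.hasProd
  have e : (fun i : ℕ => 1 + -((1 / 2 : ℝ) ^ (2 * i + 1))) =
      fun i : ℕ => 1 - (1 / 2 : ℝ) ^ (2 * i + 1) := by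
    funext i
    ring
  rw [e] at h3
  exact h3

/-- the law for sets of curves -/
theorem law (H : Pool.Agent.N809.JT.Inp) (S T : Finset (Fin 3)) (hST : S ⊆ T) {m : ℕ} (hm : 0 < m)
    (P N : Set ℤ) :
    Tendsto (fun X : ℕ =>
      ((count (fun d => (Roots T d ∧ InClass m P N d) ∧ ∀ j ∈ S, Min j d) X : ℝ) -
        const Pool.Agent.N916.GB.eta Pool.Agent.Y703.CQ.c2 S *
          total (weight S) (fun d => Roots T d ∧ InClass m P N d) X) / (X : ℝ)) atTop (nhds 0) ∧
    Tendsto (fun X : ℕ =>
      ((countDisc (fun d => (Roots T d ∧ InClass m P N d) ∧ ∀ j ∈ S, Min j d) X : ℝ) -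
        const Pool.Agent.N916.GB.eta Pool.Agent.Y703.CQ.c2 S *
          totalDisc (weight S) (fun d => Roots T d ∧ InClass m P N d) X) / (X : ℝ)) atTop
      (nhds 0) := by
  have h := Pool.Agent.N809.JT.main_cls H S T hST hm P N
  have r : ∀ d, (Roots T d ∧ InClass m P N d) ↔ ((∀ j ∈ T, RT j d) ∧ Cs m P N d) := fun d =>
    and_congr (forall_congr' fun j => forall_congr' fun _ => root_iff j d) Iff.rfl
  have q : ∀ d, ((Roots T d ∧ InClass m P N d) ∧ ∀ j ∈ S, Min j d) ↔
      (((∀ j ∈ T, RT j d) ∧ Cs m P N d) ∧ ∀ j ∈ S, RR j d) := fun d =>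
    and_congr (r d) (forall_congr' fun j => forall_congr' fun _ => min_iff j d)
  have ec : const Pool.Agent.N916.GB.eta Pool.Agent.Y703.CQ.c2 S = cst S := rfl
  rw [count_eq _ _ q, countDisc_eq _ _ q, total_eq _ _ _ r, totalDisc_eq _ _ _ r, weight_eq S, ec]
  exact h

theorem bound {η θ : ℝ} (h1 : 0.2887 < η) (h2 : η < 0.2889) (h3 : 0.4194 < θ) (h4 : θ < 0.4195) :
    0.413 < 2737 / 3072 * η + θ / 2 - 16393 / 36864 * (η * θ) := by
  nlinarith [mul_pos (sub_pos.2 h1) (sub_pos.2 h3), mul_pos (sub_pos.2 h1) (sub_pos.2 h4),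
    mul_pos (sub_pos.2 h2) (sub_pos.2 h3), mul_pos (sub_pos.2 h2) (sub_pos.2 h4)]

/-- **The joint law of the three curves.** -/
theorem result :
    (∀ (j : Fin 3) (d : ℤ), Squarefree d → Min j d →
      rootNumber j d = 1 ∧ BSDRankZero (A j d) (B j d)) ∧
    ∃ η θ : ℝ, HasProd (fun i : ℕ => 1 - (1 / 2 : ℝ) ^ (i + 1)) η ∧ 0.2887 < η ∧ η < 0.2889 ∧
      HasProd (fun i : ℕ => 1 - (1 / 2 : ℝ) ^ (2 * i + 1)) θ ∧ 0.4194 < θ ∧ θ < 0.4195 ∧
      (∀ S T : Finset (Fin 3), S ⊆ T → 2 ≤ T.card → ∀ (m : ℕ) (P N : Set ℤ), 0 < m →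
        Tendsto (fun X : ℕ =>
          ((count (fun d => (Roots T d ∧ InClass m P N d) ∧ ∀ j ∈ S, Min j d) X : ℝ) -
            const η θ S * total (weight S) (fun d => Roots T d ∧ InClass m P N d) X) / (X : ℝ))
          atTop (nhds 0) ∧
        Tendsto (fun X : ℕ =>
          ((countDisc (fun d => (Roots T d ∧ InClass m P N d) ∧ ∀ j ∈ S, Min j d) X : ℝ) -
            const η θ S * totalDisc (weight S) (fun d => Roots T d ∧ InClass m P N d) X) /
              (X : ℝ)) atTop (nhds 0)) ∧
      HasDensity (Roots {0, 1}) (433 / 1728) ∧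
      HasDensity (Roots {0, 2}) (95 / 384) ∧
      HasDensity (Roots {1, 2}) (577 / 2304) ∧
      HasDensity (Roots {0, 1, 2}) (1717 / 13824) ∧
      HasDensity (fun d => Min 0 d ∧ Min 1 d) (433 / 1728 * (η * θ)) ∧
      HasDensity (fun d => Min 0 d ∧ Min 2 d) (443 / 3072 * η) ∧
      HasDensity (fun d => Min 1 d ∧ Min 2 d) (2461 / 9216 * (η * θ)) ∧
      HasDensity (fun d => Min 0 d ∧ Min 1 d ∧ Min 2 d) (8065 / 110592 * (η * θ)) ∧
      HasDensity (fun d => Min 0 d ∨ Min 1 d ∨ Min 2 d)
        (2737 / 3072 * η + θ / 2 - 16393 / 36864 * (η * θ)) ∧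
      0.413 < 2737 / 3072 * η + θ / 2 - 16393 / 36864 * (η * θ) := by
  have H := Pool.Agent.N809.JT.inp
  have TS := Pool.Agent.N809.JT.tot_sf H Pool.Agent.N809.JT.dn_ns
  have TF := Pool.Agent.N809.JT.tot_fd H Pool.Agent.N809.JT.dn_nf
  obtain ⟨-, -, -, hb1, hb2⟩ := Pool.Agent.Y948.CQ.t_C2
  have he := Pool.Agent.N916.GB.eta_bounds
  refine ⟨fun j d hs h => ?_, Pool.Agent.N916.GB.eta, Pool.Agent.Y703.CQ.c2, hasProd_eta,
    he.1, he.2, hasProd_c2, hb1, hb2, fun S T hST _ m P N hm => law H S T hST hm P N,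
    ?_, ?_, ?_, ?_, ?_, ?_, ?_, ?_, ?_, bound he.1 he.2 hb1 hb2⟩
  · obtain ⟨h1, h2⟩ := bsd j hs ((min_iff j d).1 h)
    exact ⟨(root_iff j d).2 h1, h2⟩
  · refine dens_of (Q := fun d => Pool.Agent.N916.PQ.f15 d = true ∧ Rt17 d) (fun d => ?_)
      Pool.Agent.N975.JT.rn_NS Pool.Agent.N975.JT.rn_NF
    unfold Roots
    simp only [Finset.mem_insert, Finset.mem_singleton, forall_eq_or_imp, forall_eq]
    exact and_congr (root_iff 0 d) (root_iff 1 d)
  · refine dens_of (Q := fun d => Pool.Agent.N975.JT.f1521 d = true) (fun d => ?_)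
      Pool.Agent.N975.JT.clP_NS Pool.Agent.N975.JT.clP_NF
    unfold Roots Pool.Agent.N975.JT.f1521
    rw [Bool.and_eq_true]
    simp only [Finset.mem_insert, Finset.mem_singleton, forall_eq_or_imp, forall_eq]
    exact and_congr (root_iff 0 d) (root_iff 2 d)
  · refine dens_of (Q := fun d => Pool.Agent.N975.JT.f1721 d = true) (fun d => ?_)
      Pool.Agent.N975.JT.clM_NS Pool.Agent.N975.JT.clM_NF
    unfold Roots Pool.Agent.N975.JT.f1721
    rw [Bool.and_eq_true, Pool.Agent.N975.JT.f17_iff]
    simp only [Finset.mem_insert, Finset.mem_singleton, forall_eq_or_imp, forall_eq]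
    exact and_congr (root_iff 1 d) (root_iff 2 d)
  · refine dens_of (Q := fun d => Pool.Agent.N975.JT.f3 d = true) (fun d => ?_)
      Pool.Agent.N975.JT.clT_NS Pool.Agent.N975.JT.clT_NF
    unfold Roots Pool.Agent.N975.JT.f3
    rw [Bool.and_eq_true, Bool.and_eq_true, Pool.Agent.N975.JT.f17_iff, and_assoc]
    simp only [Finset.mem_insert, Finset.mem_singleton, forall_eq_or_imp, forall_eq]
    exact and_congr (root_iff 0 d) (and_congr (root_iff 1 d) (root_iff 2 d))
  · exact dens_of (fun d => and_congr (min0 d) (min1 d)) TS.t1517 TF.t1517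
  · exact dens_of (fun d => and_congr (min0 d) (min2 d)) TS.t1521 TF.t1521
  · exact dens_of (fun d => and_congr (min1 d) (min2 d)) TS.t1721 TF.t1721
  · exact dens_of (fun d => and_congr (min0 d) (and_congr (min1 d) (min2 d))) TS.t3 TF.t3
  · exact dens_of (fun d => or_congr (min0 d) (or_congr (min1 d) (min2 d))) TS.or TF.or

end Pool.Agent.Results.MP_696deb_nt.ConductorsJointLaw
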